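import Pool.Agent.Helper53.KM.G13

/-!
# Parameters and the divisor count, discrete version

`dcount`: few `w` are of the form `m ^ 2 / a` with a divisor `a` of an exceptional number.  `pard`: all numerical facts.
-/

set_option autoImplicit false

namespace Pool.Agent.Helper88.QS

open Finset

theorem dcount_sub (K : Finset ℕ) (Z : ℕ → Finset ℕ) (hZ : ∀ m ∈ K, ∀ z ∈ Z m, 1 ≤ z) :
    {w : ℕ | ∃ m ∈ K, ∃ a : ℕ, 1 ≤ a ∧ m ^ 2 / a = w ∧ ∃ z ∈ Z m, a ∣ z} ⊆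
      ((K.biUnion fun m => (Z m).biUnion fun z => z.divisors.image fun a => m ^ 2 / a : Finset ℕ) :
        Set ℕ) := by
  rintro w ⟨m, hm, a, _, hw, z, hz, haz⟩
  rw [Finset.mem_coe, Finset.mem_biUnion]
  refine ⟨m, hm, ?_⟩
  rw [Finset.mem_biUnion]
  refine ⟨z, hz, ?_⟩
  rw [Finset.mem_image]
  exact ⟨a, Nat.mem_divisors.2 ⟨haz, by have := hZ m hm z hz; omega⟩, hw⟩

/-- the set of `dcount` is finite -/
theorem dcount_finite (K : Finset ℕ) (Z : ℕ → Finset ℕ) (hZ : ∀ m ∈ K, ∀ z ∈ Z m, 1 ≤ z) :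
    {w : ℕ | ∃ m ∈ K, ∃ a : ℕ, 1 ≤ a ∧ m ^ 2 / a = w ∧ ∃ z ∈ Z m, a ∣ z}.Finite :=
  (Finset.finite_toSet _).subset (dcount_sub K Z hZ)

theorem dcount (c : ℝ) (hc : 0 < c) : ∃ C' : ℝ, ∀ N : ℕ, 1 ≤ N → ∀ (K : Finset ℕ)
    (Z : ℕ → Finset ℕ) (E : ℝ), (∀ m ∈ K, ∀ z ∈ Z m, 1 ≤ z ∧ z ≤ 5 * N ^ 2) →
    (∀ m ∈ K, (#(Z m) : ℝ) ≤ E) →
    ({w : ℕ | ∃ m ∈ K, ∃ a : ℕ, 1 ≤ a ∧ m ^ 2 / a = w ∧ ∃ z ∈ Z m, a ∣ z}.ncard : ℝ) ≤
      C' * (N : ℝ) ^ c * #K * E := by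
  classical
  obtain ⟨C1, hC1, hd⟩ := Pool.Agent.M17.Helper89.SLE.divisor_bound (c / 2) (by linarith)
  refine ⟨C1 * (5 : ℝ) ^ (c / 2), ?_⟩
  intro N hN K Z E hZ hE
  have hN0 : (0 : ℝ) ≤ N := Nat.cast_nonneg _
  have hsub := dcount_sub K Z fun m hm z hz => (hZ m hm z hz).1
  have h1 := Set.ncard_le_ncard hsub (Finset.finite_toSet _)
  rw [Set.ncard_coe_finset] at h1
  have h2 : (#(K.biUnion fun m => (Z m).biUnion fun z => z.divisors.image fun a => m ^ 2 / a) : ℝ) ≤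
      ∑ m ∈ K, ∑ z ∈ Z m, ((z.divisors.card : ℕ) : ℝ) := by
    have h3 : #(K.biUnion fun m => (Z m).biUnion fun z => z.divisors.image fun a => m ^ 2 / a) ≤
        ∑ m ∈ K, ∑ z ∈ Z m, z.divisors.card := by
      refine Finset.card_biUnion_le.trans (Finset.sum_le_sum fun m _ => ?_)
      refine Finset.card_biUnion_le.trans (Finset.sum_le_sum fun z _ => ?_)
      exact Finset.card_image_le
    exact_mod_cast h3
  have h4 : ∑ m ∈ K, ∑ z ∈ Z m, ((z.divisors.card : ℕ) : ℝ) ≤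
      ∑ m ∈ K, E * (C1 * (5 : ℝ) ^ (c / 2) * (N : ℝ) ^ c) := by
    refine Finset.sum_le_sum fun m hm => ?_
    have h5 : ∀ z ∈ Z m, ((z.divisors.card : ℕ) : ℝ) ≤ C1 * (5 : ℝ) ^ (c / 2) * (N : ℝ) ^ c := by
      intro z hz
      have hz' := hZ m hm z hz
      refine (hd z (by omega)).trans ?_
      rw [mul_assoc]
      apply mul_le_mul_of_nonneg_left _ (by linarith)
      have h6 : (z : ℝ) ≤ 5 * (N : ℝ) ^ 2 := by exact_mod_cast hz'.2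
      calc (z : ℝ) ^ (c / 2) ≤ (5 * (N : ℝ) ^ 2) ^ (c / 2) :=
            Real.rpow_le_rpow (Nat.cast_nonneg _) h6 (by linarith)
        _ = (5 : ℝ) ^ (c / 2) * ((N : ℝ) ^ 2) ^ (c / 2) :=
            Real.mul_rpow (by norm_num) (by positivity)
        _ = (5 : ℝ) ^ (c / 2) * (N : ℝ) ^ c := by
            rw [← Real.rpow_natCast (N : ℝ) 2, ← Real.rpow_mul hN0]
            congr 2
            push_cast
            ring
    refine (Finset.sum_le_card_nsmul _ _ _ h5).trans ?_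
    rw [nsmul_eq_mul]
    exact mul_le_mul_of_nonneg_right (hE m hm) (by positivity)
  rw [Finset.sum_const, nsmul_eq_mul] at h4
  calc (Set.ncard {w : ℕ | ∃ m ∈ K, ∃ a : ℕ, 1 ≤ a ∧ m ^ 2 / a = w ∧ ∃ z ∈ Z m, a ∣ z} : ℝ)
      ≤ (#(K.biUnion fun m => (Z m).biUnion fun z => z.divisors.image fun a => m ^ 2 / a) : ℝ) := by
        exact_mod_cast h1
    _ ≤ #K * (E * (C1 * (5 : ℝ) ^ (c / 2) * (N : ℝ) ^ c)) := h2.trans h4
    _ = _ := by ring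

theorem pard0 (δ ε : ℝ) (hδ : 0 ≤ δ) (h : 10 * δ < ε) (hε1 : ε ≤ 1) : ∃ a : ℕ, 1 ≤ a ∧
    ∀ (X0 : ℕ) (D : ℝ), 1 ≤ D → ∃ N0 : ℕ, ∀ N : ℕ, N0 ≤ N → ∃ X W H R : ℕ, X0 ≤ X ∧ 1 ≤ W ∧
    W ≤ X ^ (2 ^ a - 2) ∧ 40 * (N : ℝ) ^ (1 + δ) ≤ W ∧ 1 ≤ R ∧ (R : ℝ) ≤ (N : ℝ) ^ ε ∧
    N ≤ X * W / 2 ∧ 32768 * (32 * (X * W / 2)) ^ 4 ≤ H * N ^ 4 ∧
    (2 : ℝ) ^ (2 ^ a) * (6 * (64 * ((32 * (X * W / 2) : ℕ) : ℝ) ^ 2 * (H : ℝ) ^ 2 *
      (2 + Real.log (8 * H * N + 1)) / (N * R)) +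
      D * (N : ℝ) ^ ((ε - 10 * δ) / 100) * R * (2 * (N : ℝ) ^ (1 - ε))) ≤ W := by
  obtain ⟨c, hc⟩ : ∃ c : ℝ, c = (ε - 10 * δ) / 100 := ⟨_, rfl⟩
  have hc0 : 0 < c := by
    rw [hc]
    linarith
  have hεc : ε = 10 * δ + 100 * c := by
    rw [hc]
    ring
  rw [← hc]
  have hδ1 : δ < 1 / 10 := by linarith
  have hc1 : c ≤ 1 / 100 := by linarith
  refine ⟨⌈4 / c⌉₊, Nat.one_le_iff_ne_zero.2 (Nat.ceil_pos.2 (by positivity)).ne', ?_⟩
  obtain ⟨a, ha⟩ : ∃ a : ℕ, a = ⌈4 / c⌉₊ := ⟨_, rfl⟩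
  rw [← ha]
  have hac : 4 ≤ c * (2 : ℝ) ^ a := by
    have h1 : 4 / c ≤ (a : ℝ) := by
      rw [ha]
      exact Nat.le_ceil _
    have h2 : (a : ℝ) ≤ (2 : ℝ) ^ a := by
      exact_mod_cast (Nat.lt_two_pow_self (n := a)).le
    have h3 := h1.trans h2
    rw [div_le_iff₀ hc0] at h3
    linarith
  have ha1 : 1 ≤ a := by
    rw [ha]
    exact Nat.one_le_iff_ne_zero.2 (Nat.ceil_pos.2 (by positivity)).ne'
  have h2a : 2 ≤ 2 ^ a := by
    calc 2 = 2 ^ 1 := by norm_num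
      _ ≤ 2 ^ a := Nat.pow_le_pow_right (by norm_num) ha1
  intro X0 D hD
  -- the constants
  obtain ⟨K1, hK1⟩ : ∃ K1 : ℝ, K1 = 32769 * 1312 ^ 4 := ⟨_, rfl⟩
  obtain ⟨K2, hK2⟩ : ∃ K2 : ℝ, K2 = 2 + Real.log (9 * K1) + 2 / c := ⟨_, rfl⟩
  obtain ⟨K3, hK3⟩ : ∃ K3 : ℝ, K3 = 384 * 1312 ^ 2 * K1 ^ 2 * K2 := ⟨_, rfl⟩
  have hK10 : 1 ≤ K1 := by
    rw [hK1]
    norm_num
  have hlogK1 : 0 ≤ Real.log (9 * K1) := Real.log_nonneg (by linarith)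
  have hK20 : 0 < K2 := by
    rw [hK2]
    positivity
  have hK30 : 0 < K3 := by
    rw [hK3]
    positivity
  obtain ⟨M, hM⟩ : ∃ M : ℝ, M = max (max (X0 : ℝ) 2) ((2 : ℝ) ^ (2 ^ a) * (K3 + 4 * D)) := ⟨_, rfl⟩
  have hev := ((tendsto_rpow_atTop hc0).comp tendsto_natCast_atTop_atTop).eventually_ge_atTop M
  obtain ⟨N1, hN1⟩ := Filter.eventually_atTop.1 hev
  refine ⟨max N1 41, ?_⟩
  intro N hN
  have hNM : M ≤ (N : ℝ) ^ c := hN1 N ((le_max_left _ _).trans hN)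
  have hN41 : 41 ≤ N := (le_max_right _ _).trans hN
  have hNr : (41 : ℝ) ≤ N := by exact_mod_cast hN41
  have hNr1 : (1 : ℝ) ≤ N := by linarith
  have hN0 : (0 : ℝ) < N := by linarith
  have hcX : (X0 : ℝ) ≤ (N : ℝ) ^ c := by
    refine le_trans ?_ hNM
    rw [hM]
    exact (le_max_left _ _).trans (le_max_left _ _)
  have hc2 : (2 : ℝ) ≤ (N : ℝ) ^ c := by
    refine le_trans ?_ hNM
    rw [hM]
    exact (le_max_right _ _).trans (le_max_left _ _)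
  have hcK : (2 : ℝ) ^ (2 ^ a) * (K3 + 4 * D) ≤ (N : ℝ) ^ c := by
    refine le_trans ?_ hNM
    rw [hM]
    exact le_max_right _ _
  obtain ⟨X, hX⟩ : ∃ X : ℕ, X = ⌈(N : ℝ) ^ c⌉₊ := ⟨_, rfl⟩
  obtain ⟨W, hW⟩ : ∃ W : ℕ, W = ⌈40 * (N : ℝ) ^ (1 + δ)⌉₊ := ⟨_, rfl⟩
  obtain ⟨R, hR⟩ : ∃ R : ℕ, R = ⌈(N : ℝ) ^ (9 * δ + 50 * c)⌉₊ := ⟨_, rfl⟩
  obtain ⟨V, hV⟩ : ∃ V : ℕ, V = 32 * (X * W / 2) := ⟨_, rfl⟩
  obtain ⟨H, hH⟩ : ∃ H : ℕ, H = ⌈32768 * (V : ℝ) ^ 4 / (N : ℝ) ^ 4⌉₊ := ⟨_, rfl⟩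
  have hX1 : (N : ℝ) ^ c ≤ X := by
    rw [hX]
    exact Nat.le_ceil _
  have hX2 : (X : ℝ) ≤ 2 * (N : ℝ) ^ c := by
    have h1 := Nat.ceil_lt_add_one (show (0 : ℝ) ≤ (N : ℝ) ^ c by positivity)
    rw [← hX] at h1
    linarith
  have hNδ : (N : ℝ) ≤ (N : ℝ) ^ (1 + δ) := by
    calc (N : ℝ) = (N : ℝ) ^ (1 : ℝ) := (Real.rpow_one _).symm
      _ ≤ _ := Real.rpow_le_rpow_of_exponent_le hNr1 (by linarith)
  have hW1 : 40 * (N : ℝ) ^ (1 + δ) ≤ W := by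
    rw [hW]
    exact Nat.le_ceil _
  have hW2 : (W : ℝ) ≤ 41 * (N : ℝ) ^ (1 + δ) := by
    have h1 := Nat.ceil_lt_add_one (show (0 : ℝ) ≤ 40 * (N : ℝ) ^ (1 + δ) by positivity)
    rw [← hW] at h1
    linarith
  have hR1 : (N : ℝ) ^ (9 * δ + 50 * c) ≤ R := by
    rw [hR]
    exact Nat.le_ceil _
  have hR0 : (1 : ℝ) ≤ (N : ℝ) ^ (9 * δ + 50 * c) := Real.one_le_rpow hNr1 (by positivity)
  have hR2 : (R : ℝ) ≤ 2 * (N : ℝ) ^ (9 * δ + 50 * c) := by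
    have h1 := Nat.ceil_lt_add_one (show (0 : ℝ) ≤ (N : ℝ) ^ (9 * δ + 50 * c) by positivity)
    rw [← hR] at h1
    linarith
  have hXr1 : (2 : ℝ) ≤ X := hc2.trans hX1
  have hWr1 : (40 : ℝ) * N ≤ W := by linarith
  have hWpos : (0 : ℝ) < W := by linarith
  -- `X W / 2`
  have hXW1 : (X : ℝ) * W / 2 ≤ ((X * W / 2 : ℕ) : ℝ) + 1 / 2 := by
    have h1 : X * W ≤ 2 * (X * W / 2) + 1 := by omega
    have h2 : ((X * W : ℕ) : ℝ) ≤ ((2 * (X * W / 2) + 1 : ℕ) : ℝ) := by exact_mod_cast h1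
    rw [Nat.cast_add, Nat.cast_mul, Nat.cast_mul] at h2
    push_cast at h2 ⊢
    linarith
  have hXW2 : ((X * W / 2 : ℕ) : ℝ) ≤ (X : ℝ) * W / 2 := by
    have h1 : 2 * (X * W / 2) ≤ X * W := by omega
    have h2 : ((2 * (X * W / 2) : ℕ) : ℝ) ≤ ((X * W : ℕ) : ℝ) := by exact_mod_cast h1
    rw [Nat.cast_mul, Nat.cast_mul] at h2
    push_cast at h2 ⊢
    linarith
  have hVr : (V : ℝ) = 32 * ((X * W / 2 : ℕ) : ℝ) := by
    rw [hV]
    push_cast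
    ring
  have hV1 : (V : ℝ) ≤ 1312 * (N : ℝ) ^ (1 + δ + c) := by
    have h1 : (X : ℝ) * W ≤ (2 * (N : ℝ) ^ c) * (41 * (N : ℝ) ^ (1 + δ)) :=
      mul_le_mul hX2 hW2 hWpos.le (by positivity)
    have h2 : (N : ℝ) ^ (1 + δ + c) = (N : ℝ) ^ (1 + δ) * (N : ℝ) ^ c := Real.rpow_add hN0 _ _
    rw [h2, hVr]
    nlinarith
  have hNW : (N : ℝ) ≤ ((X * W / 2 : ℕ) : ℝ) := by
    have h1 : 2 * (40 * (N : ℝ)) ≤ X * W := mul_le_mul hXr1 hWr1 (by positivity) (by positivity)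
    linarith
  have hVN : (N : ℝ) ≤ V := by
    rw [hVr]
    linarith
  have hV0 : (0 : ℝ) < V := by linarith
  have hH1 : 32768 * (V : ℝ) ^ 4 / (N : ℝ) ^ 4 ≤ H := by
    rw [hH]
    exact Nat.le_ceil _
  have hH2 : (H : ℝ) ≤ K1 * (N : ℝ) ^ (4 * δ + 4 * c) := by
    have h1 := Nat.ceil_lt_add_one (show (0 : ℝ) ≤ 32768 * (V : ℝ) ^ 4 / (N : ℝ) ^ 4 by positivity)
    rw [← hH] at h1
    have h2 : (1 : ℝ) ≤ (V : ℝ) ^ 4 / (N : ℝ) ^ 4 := by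
      rw [le_div_iff₀ (by positivity), one_mul]
      exact pow_le_pow_left₀ hN0.le hVN 4
    have h3 : (H : ℝ) ≤ 32769 * ((V : ℝ) ^ 4 / (N : ℝ) ^ 4) := by
      have h4 : 32768 * (V : ℝ) ^ 4 / (N : ℝ) ^ 4 = 32768 * ((V : ℝ) ^ 4 / (N : ℝ) ^ 4) := by ring
      rw [h4] at h1
      linarith
    refine h3.trans ?_
    have h5 : (V : ℝ) ^ 4 / (N : ℝ) ^ 4 ≤ 1312 ^ 4 * (N : ℝ) ^ (4 * δ + 4 * c) := by
      rw [div_le_iff₀ (by positivity)]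
      calc (V : ℝ) ^ 4 ≤ (1312 * (N : ℝ) ^ (1 + δ + c)) ^ 4 := pow_le_pow_left₀ hV0.le hV1 4
        _ = 1312 ^ 4 * ((N : ℝ) ^ (1 + δ + c)) ^ 4 := by ring
        _ = 1312 ^ 4 * (N : ℝ) ^ (4 * δ + 4 * c) * (N : ℝ) ^ 4 := by
            rw [← Real.rpow_natCast ((N : ℝ) ^ (1 + δ + c)) 4, ← Real.rpow_mul hN0.le,
              ← Real.rpow_natCast (N : ℝ) 4, mul_assoc, ← Real.rpow_add hN0]
            congr 2
            push_cast
            ring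
    rw [hK1]
    nlinarith
  have hH0 : (1 : ℝ) ≤ H := by
    have h2 : (1 : ℝ) ≤ (V : ℝ) ^ 4 / (N : ℝ) ^ 4 := by
      rw [le_div_iff₀ (by positivity), one_mul]
      exact pow_le_pow_left₀ hN0.le hVN 4
    have h4 : 32768 * (V : ℝ) ^ 4 / (N : ℝ) ^ 4 = 32768 * ((V : ℝ) ^ 4 / (N : ℝ) ^ 4) := by ring
    rw [h4] at hH1
    linarith
  have hNc1 : (1 : ℝ) ≤ (N : ℝ) ^ c := by linarith
  have hlog : 2 + Real.log (8 * H * N + 1) ≤ K2 * (N : ℝ) ^ c := by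
    have h1 : 8 * (H : ℝ) * N + 1 ≤ 9 * K1 * (N : ℝ) ^ 2 := by
      have h2 : (H : ℝ) ≤ K1 * N := by
        refine hH2.trans (mul_le_mul_of_nonneg_left ?_ (by linarith))
        calc (N : ℝ) ^ (4 * δ + 4 * c) ≤ (N : ℝ) ^ (1 : ℝ) :=
              Real.rpow_le_rpow_of_exponent_le hNr1 (by linarith)
          _ = N := Real.rpow_one _
      have h3 : (H : ℝ) * N ≤ K1 * N * N := mul_le_mul_of_nonneg_right h2 hN0.le
      have h4 : (1 : ℝ) ≤ K1 * N * N := by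
        have h5 : (1 : ℝ) ≤ K1 * N := by nlinarith
        nlinarith
      nlinarith
    have h5 : Real.log (8 * H * N + 1) ≤ Real.log (9 * K1) + 2 * Real.log N := by
      refine (Real.log_le_log (by positivity) h1).trans (le_of_eq ?_)
      rw [Real.log_mul (by positivity) (by positivity), Real.log_pow]
      push_cast
      ring
    have h6 : Real.log N ≤ (N : ℝ) ^ c / c := Real.log_le_rpow_div hN0.le hc0
    have h7 : 2 * Real.log N ≤ 2 / c * (N : ℝ) ^ c := by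
      calc 2 * Real.log N ≤ 2 * ((N : ℝ) ^ c / c) := by linarith
        _ = _ := by ring
    rw [hK2]
    nlinarith
  have hlog0 : (0 : ℝ) ≤ 2 + Real.log (8 * H * N + 1) := by
    have h1 : 0 ≤ Real.log (8 * H * N + 1) := Real.log_nonneg (by
      have : (0 : ℝ) ≤ 8 * H * N := by positivity
      linarith)
    linarith
  refine ⟨X, W, H, R, ?_, ?_, ?_, hW1, ?_, ?_, ?_, ?_, ?_⟩
  · have h1 : (X0 : ℝ) ≤ X := hcX.trans hX1
    exact_mod_cast h1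
  · have h1 : (1 : ℝ) ≤ W := by linarith
    exact_mod_cast h1
  · have h1 : (W : ℝ) ≤ ((X ^ (2 ^ a - 2) : ℕ) : ℝ) := by
      push_cast
      calc (W : ℝ) ≤ 41 * (N : ℝ) ^ (1 + δ) := hW2
        _ ≤ (N : ℝ) ^ (1 : ℝ) * (N : ℝ) ^ (1 + δ) := by
            rw [Real.rpow_one]
            exact mul_le_mul_of_nonneg_right hNr (by positivity)
        _ = (N : ℝ) ^ (2 + δ) := by
            rw [← Real.rpow_add hN0]
            congr 1
            ring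
        _ ≤ (N : ℝ) ^ (c * ((2 ^ a - 2 : ℕ) : ℝ)) := by
            apply Real.rpow_le_rpow_of_exponent_le hNr1
            rw [Nat.cast_sub h2a]
            push_cast
            nlinarith
        _ = ((N : ℝ) ^ c) ^ (2 ^ a - 2) := by
            rw [Real.rpow_mul hN0.le, Real.rpow_natCast]
        _ ≤ (X : ℝ) ^ (2 ^ a - 2) := pow_le_pow_left₀ (by positivity) hX1 _
    exact_mod_cast h1
  · have h1 : (1 : ℝ) ≤ R := hR0.trans hR1
    exact_mod_cast h1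
  · refine hR2.trans ?_
    have h1 : (N : ℝ) ^ ε = (N : ℝ) ^ (δ + 49 * c) * (N : ℝ) ^ c * (N : ℝ) ^ (9 * δ + 50 * c) := by
      rw [← Real.rpow_add hN0, ← Real.rpow_add hN0, hεc]
      congr 1
      ring
    rw [h1]
    apply mul_le_mul_of_nonneg_right _ (by positivity)
    have h2 : (1 : ℝ) ≤ (N : ℝ) ^ (δ + 49 * c) := Real.one_le_rpow hNr1 (by positivity)
    nlinarith
  · exact_mod_cast hNW
  · have h1 : ((32768 * (32 * (X * W / 2)) ^ 4 : ℕ) : ℝ) ≤ ((H * N ^ 4 : ℕ) : ℝ) := by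
      rw [← hV]
      push_cast
      rw [div_le_iff₀ (by positivity)] at hH1
      exact hH1
    exact_mod_cast h1
  · rw [← hV]
    have hR00 : (0 : ℝ) < R := by linarith
    -- first term
    have hA : 6 * (64 * (V : ℝ) ^ 2 * (H : ℝ) ^ 2 * (2 + Real.log (8 * H * N + 1)) / (N * R)) ≤
        K3 * (N : ℝ) ^ (1 + δ - 39 * c) := by
      have h1 : (V : ℝ) ^ 2 * (H : ℝ) ^ 2 * (2 + Real.log (8 * H * N + 1)) ≤
          (1312 * (N : ℝ) ^ (1 + δ + c)) ^ 2 * (K1 * (N : ℝ) ^ (4 * δ + 4 * c)) ^ 2 *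
            (K2 * (N : ℝ) ^ c) := by
        apply mul_le_mul _ hlog hlog0 (by positivity)
        exact mul_le_mul (pow_le_pow_left₀ hV0.le hV1 2) (pow_le_pow_left₀ (by linarith) hH2 2)
          (by positivity) (by positivity)
      have h2 : (N : ℝ) ^ (1 + δ - 39 * c) * (N * (N : ℝ) ^ (9 * δ + 50 * c)) =
          ((N : ℝ) ^ (1 + δ + c)) ^ 2 * ((N : ℝ) ^ (4 * δ + 4 * c)) ^ 2 * (N : ℝ) ^ c := by
        have e1 : ((N : ℝ) ^ (1 + δ + c)) ^ 2 = (N : ℝ) ^ (2 * (1 + δ + c)) := by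
          rw [← Real.rpow_natCast ((N : ℝ) ^ (1 + δ + c)) 2, ← Real.rpow_mul hN0.le]
          congr 1
          push_cast
          ring
        have e2 : ((N : ℝ) ^ (4 * δ + 4 * c)) ^ 2 = (N : ℝ) ^ (2 * (4 * δ + 4 * c)) := by
          rw [← Real.rpow_natCast ((N : ℝ) ^ (4 * δ + 4 * c)) 2, ← Real.rpow_mul hN0.le]
          congr 1
          push_cast
          ring
        have e3 : (N : ℝ) * (N : ℝ) ^ (9 * δ + 50 * c) = (N : ℝ) ^ (1 + (9 * δ + 50 * c)) := by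
          rw [Real.rpow_add hN0 1 (9 * δ + 50 * c), Real.rpow_one]
        rw [e1, e2, e3, ← Real.rpow_add hN0, ← Real.rpow_add hN0, ← Real.rpow_add hN0]
        congr 1
        ring
      rw [← mul_div_assoc, div_le_iff₀ (by positivity)]
      calc 6 * (64 * (V : ℝ) ^ 2 * (H : ℝ) ^ 2 * (2 + Real.log (8 * H * N + 1)))
          = 384 * ((V : ℝ) ^ 2 * (H : ℝ) ^ 2 * (2 + Real.log (8 * H * N + 1))) := by ring
        _ ≤ 384 * ((1312 * (N : ℝ) ^ (1 + δ + c)) ^ 2 * (K1 * (N : ℝ) ^ (4 * δ + 4 * c)) ^ 2 *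
            (K2 * (N : ℝ) ^ c)) := mul_le_mul_of_nonneg_left h1 (by norm_num)
        _ = K3 * (((N : ℝ) ^ (1 + δ + c)) ^ 2 * ((N : ℝ) ^ (4 * δ + 4 * c)) ^ 2 * (N : ℝ) ^ c) := by
            rw [hK3]
            ring
        _ = K3 * ((N : ℝ) ^ (1 + δ - 39 * c) * (N * (N : ℝ) ^ (9 * δ + 50 * c))) := by rw [h2]
        _ ≤ K3 * ((N : ℝ) ^ (1 + δ - 39 * c) * (N * R)) := by
            apply mul_le_mul_of_nonneg_left _ hK30.le
            apply mul_le_mul_of_nonneg_left _ (by positivity)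
            exact mul_le_mul_of_nonneg_left hR1 hN0.le
        _ = K3 * (N : ℝ) ^ (1 + δ - 39 * c) * (N * R) := by ring
    -- second term
    have hB : D * (N : ℝ) ^ c * R * (2 * (N : ℝ) ^ (1 - ε)) ≤
        4 * D * (N : ℝ) ^ (1 + δ - 39 * c) := by
      have h1 : (N : ℝ) ^ c * (N : ℝ) ^ (9 * δ + 50 * c) * (N : ℝ) ^ (1 - ε) ≤
          (N : ℝ) ^ (1 + δ - 39 * c) := by
        rw [← Real.rpow_add hN0, ← Real.rpow_add hN0]
        apply Real.rpow_le_rpow_of_exponent_le hNr1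
        rw [hεc]
        linarith
      calc D * (N : ℝ) ^ c * R * (2 * (N : ℝ) ^ (1 - ε))
          ≤ D * (N : ℝ) ^ c * (2 * (N : ℝ) ^ (9 * δ + 50 * c)) * (2 * (N : ℝ) ^ (1 - ε)) := by
            apply mul_le_mul_of_nonneg_right _ (by positivity)
            exact mul_le_mul_of_nonneg_left hR2 (by positivity)
        _ = 4 * D * ((N : ℝ) ^ c * (N : ℝ) ^ (9 * δ + 50 * c) * (N : ℝ) ^ (1 - ε)) := by ring
        _ ≤ 4 * D * (N : ℝ) ^ (1 + δ - 39 * c) := mul_le_mul_of_nonneg_left h1 (by positivity)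
    have hsplit : (N : ℝ) ^ c * (N : ℝ) ^ (1 + δ - 39 * c) ≤ (N : ℝ) ^ (1 + δ) := by
      rw [← Real.rpow_add hN0]
      apply Real.rpow_le_rpow_of_exponent_le hNr1
      linarith
    calc (2 : ℝ) ^ (2 ^ a) * (6 * (64 * (V : ℝ) ^ 2 * (H : ℝ) ^ 2 *
          (2 + Real.log (8 * H * N + 1)) / (N * R)) + D * (N : ℝ) ^ c * R * (2 * (N : ℝ) ^ (1 - ε)))
        ≤ (2 : ℝ) ^ (2 ^ a) * (K3 * (N : ℝ) ^ (1 + δ - 39 * c) +
            4 * D * (N : ℝ) ^ (1 + δ - 39 * c)) :=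
          mul_le_mul_of_nonneg_left (add_le_add hA hB) (by positivity)
      _ = ((2 : ℝ) ^ (2 ^ a) * (K3 + 4 * D)) * (N : ℝ) ^ (1 + δ - 39 * c) := by ring
      _ ≤ (N : ℝ) ^ c * (N : ℝ) ^ (1 + δ - 39 * c) :=
          mul_le_mul_of_nonneg_right hcK (by positivity)
      _ ≤ (N : ℝ) ^ (1 + δ) := hsplit
      _ ≤ W := by
          have : (0 : ℝ) ≤ (N : ℝ) ^ (1 + δ) := by positivity
          linarith

theorem pard (δ ε : ℝ) (hδ : 0 ≤ δ) (h : 10 * δ < ε) (hε1 : ε ≤ 1) : ∃ (c : ℝ) (a b : ℕ), 0 < c ∧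
    1 ≤ a ∧ b = 2 ^ a - 2 ∧ ∀ (C' : ℝ) (X0 : ℕ), ∃ N0 : ℕ, ∀ N : ℕ, N0 ≤ N →
    ∃ (X W R : ℕ) (H : ℕ → ℕ), X0 ≤ X ∧ 1 ≤ N ∧ 1 ≤ W ∧ W ≤ X ^ b ∧ 1 ≤ R ∧ (R : ℝ) ≤ (N : ℝ) ^ ε ∧
    6 ≤ X * W ∧ 40 * (N : ℝ) ^ 2 ≤ W * (N : ℝ) ^ (1 - δ) ∧ N ≤ X * W / 2 ∧
    (∀ i < 6, 512 * (2 ^ i * (X * W / 2)) ^ 4 ≤ H i * N ^ 4) ∧
    (2 : ℝ) ^ (b + 2) * (∑ i ∈ range 6, 64 * ((2 ^ i * (X * W / 2) : ℕ) : ℝ) ^ 2 / N *
      (H i : ℝ) ^ 2 * (1 + Real.log (8 * H i * N : ℕ)) / R +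
      C' * (N : ℝ) ^ c * R * (2 * (N : ℝ) ^ (1 - ε))) ≤ W := by
  obtain ⟨a, ha, h0⟩ := pard0 δ ε hδ h hε1
  refine ⟨(ε - 10 * δ) / 100, a, 2 ^ a - 2, by linarith, ha, rfl, ?_⟩
  intro C' X0
  obtain ⟨N0, hN0⟩ := h0 X0 (max C' 1) (le_max_right _ _)
  refine ⟨max N0 3, ?_⟩
  intro N hN
  obtain ⟨X, W, H, R, h1, h2, h3, h4, h5, h6, h7, h8, h9⟩ := hN0 N ((le_max_left _ _).trans hN)
  have hN3 : 3 ≤ N := (le_max_right _ _).trans hN
  have hNr : (3 : ℝ) ≤ N := by exact_mod_cast hN3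
  have hNpos : (0 : ℝ) < N := by linarith
  have h2a : 2 ≤ 2 ^ a := by
    calc 2 = 2 ^ 1 := by norm_num
      _ ≤ 2 ^ a := Nat.pow_le_pow_right (by norm_num) ha
  have hRr : (1 : ℝ) ≤ R := by exact_mod_cast h5
  have hH1 : 1 ≤ H := by
    rcases Nat.eq_zero_or_pos H with hH | hH
    · exfalso
      rw [hH, zero_mul] at h8
      have hV : 0 < X * W / 2 := by omega
      have : 0 < 32768 * (32 * (X * W / 2)) ^ 4 := by positivity
      omega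
    · exact hH
  have hHr : (1 : ℝ) ≤ H := by exact_mod_cast hH1
  refine ⟨X, W, R, fun _ => H, h1, by omega, h2, h3, h5, h6, by omega, ?_, h7, ?_, ?_⟩
  · calc 40 * (N : ℝ) ^ 2 = 40 * (N : ℝ) ^ (1 + δ) * (N : ℝ) ^ (1 - δ) := by
          rw [mul_assoc, ← Real.rpow_add hNpos]
          congr 1
          rw [show 1 + δ + (1 - δ) = 2 by ring, Real.rpow_two]
      _ ≤ W * (N : ℝ) ^ (1 - δ) := mul_le_mul_of_nonneg_right h4 (by positivity)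
  · intro i hi
    have h10 : 2 ^ i * (X * W / 2) ≤ 32 * (X * W / 2) := by
      apply Nat.mul_le_mul_right
      calc 2 ^ i ≤ 2 ^ 5 := Nat.pow_le_pow_right (by norm_num) (by omega)
        _ = 32 := by norm_num
    calc 512 * (2 ^ i * (X * W / 2)) ^ 4 ≤ 32768 * (32 * (X * W / 2)) ^ 4 :=
          Nat.mul_le_mul (by norm_num) (Nat.pow_le_pow_left h10 4)
      _ ≤ H * N ^ 4 := h8
  · rw [Nat.sub_add_cancel h2a]
    refine le_trans ?_ h9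
    apply mul_le_mul_of_nonneg_left _ (by positivity)
    apply add_le_add
    · have hterm : ∀ i ∈ range 6, 64 * ((2 ^ i * (X * W / 2) : ℕ) : ℝ) ^ 2 / N *
          (H : ℝ) ^ 2 * (1 + Real.log (8 * H * N : ℕ)) / R ≤
          64 * ((32 * (X * W / 2) : ℕ) : ℝ) ^ 2 * (H : ℝ) ^ 2 *
            (2 + Real.log (8 * H * N + 1)) / (N * R) := by
        intro i hi
        have hi' := Finset.mem_range.1 hi
        have h10 : 2 ^ i * (X * W / 2) ≤ 32 * (X * W / 2) := by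
          apply Nat.mul_le_mul_right
          calc 2 ^ i ≤ 2 ^ 5 := Nat.pow_le_pow_right (by norm_num) (by omega)
            _ = 32 := by norm_num
        have h11 : ((2 ^ i * (X * W / 2) : ℕ) : ℝ) ^ 2 ≤ ((32 * (X * W / 2) : ℕ) : ℝ) ^ 2 :=
          pow_le_pow_left₀ (Nat.cast_nonneg _) (by exact_mod_cast h10) 2
        have h12 : 1 + Real.log (8 * H * N : ℕ) ≤ 2 + Real.log (8 * H * N + 1) := by
          have h13 : Real.log ((8 * H * N : ℕ) : ℝ) ≤ Real.log (8 * H * N + 1) := by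
            apply Real.log_le_log
            · push_cast
              positivity
            · push_cast
              linarith
          linarith
        have h14 : (0 : ℝ) ≤ 1 + Real.log (8 * H * N : ℕ) := by
          have : 0 ≤ Real.log ((8 * H * N : ℕ) : ℝ) := Real.log_natCast_nonneg _
          linarith
        have e1 : 64 * ((2 ^ i * (X * W / 2) : ℕ) : ℝ) ^ 2 / N *
            (H : ℝ) ^ 2 * (1 + Real.log (8 * H * N : ℕ)) / R =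
            64 * ((2 ^ i * (X * W / 2) : ℕ) : ℝ) ^ 2 * (H : ℝ) ^ 2 *
              (1 + Real.log (8 * H * N : ℕ)) / (N * R) := by
          field_simp
        rw [e1]
        apply div_le_div_of_nonneg_right _ (by positivity)
        apply mul_le_mul _ h12 h14 (by positivity)
        apply mul_le_mul_of_nonneg_right _ (by positivity)
        exact mul_le_mul_of_nonneg_left h11 (by norm_num)
      refine (Finset.sum_le_card_nsmul _ _ _ hterm).trans (le_of_eq ?_)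
      rw [Finset.card_range, nsmul_eq_mul]
      push_cast
      ring
    · apply mul_le_mul_of_nonneg_right _ (by positivity)
      apply mul_le_mul_of_nonneg_right _ (by positivity)
      apply mul_le_mul_of_nonneg_right _ (by positivity)
      exact le_max_left _ _

end Pool.Agent.Helper88.QS
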