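import Pool.Agent.Helper88.QS.ParD
import Pool.Agent.Helper87.QS.Assemble
import Pool.Agent.Helper21.QS.ChainEnd

/-!
# QS: the block `(N, 2 N]`, discrete version
-/

set_option autoImplicit false

namespace Pool.Agent.Helper88.QS

open Finset
open Pool.Agent.Helper68.CO2 (lam)

theorem block (δ ε : ℝ) (hδ : 0 ≤ δ) (h : 10 * δ < ε) (hε1 : ε ≤ 1) : ∃ N0 : ℕ, ∀ N : ℕ, N0 ≤ N →
    ∀ B : Finset ℕ, (∀ m ∈ B, N < m ∧ m ≤ 2 * N) →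
    (∀ m ∈ B, ∃ s : ℤˣ, ({z : ℕ | m ^ 2 < z ∧ (z : ℝ) ≤ (m : ℝ) ^ 2 + (N : ℝ) ^ (1 - δ) ∧
      lam z ≠ s}.ncard : ℝ) ≤ 2 * (N : ℝ) ^ (1 - ε)) → (#B : ℝ) ≤ (N : ℝ) ^ ε := by
  obtain ⟨c, a, b, hc, ha, hb, hp⟩ := pard δ ε hδ h hε1
  obtain ⟨X0, hX0⟩ := Pool.Agent.Helper21.QS.chain_end b
  obtain ⟨C', hC'⟩ := dcount c hc
  obtain ⟨N0, hN0⟩ := hp C' X0
  exact ⟨N0, fun N hN B hB hbad => Pool.Agent.Helper87.QS.block_of δ ε hX0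
    (fun N _ K Z hZ => dcount_finite K Z fun m hm z hz => (hZ m hm z hz).1) hC' hδ (hN0 N hN) B hB
    hbad⟩

end Pool.Agent.Helper88.QS
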