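import Pool.Agent.Helper53.KM.G13

/-!
# The divisor count

Few `w` are of the form `g m / a` with a divisor `a` of an exceptional number.
-/

set_option autoImplicit false

namespace Pool.Agent.Helper88.QS

open Finset

theorem gcount_sub (g : ℕ → ℕ) (K : Finset ℕ) (Z : ℕ → Finset ℕ) (hZ : ∀ m ∈ K, ∀ z ∈ Z m, 1 ≤ z) :
    {w : ℕ | ∃ m ∈ K, ∃ a : ℕ, 1 ≤ a ∧ g m / a = w ∧ ∃ z ∈ Z m, a ∣ z} ⊆
      ((K.biUnion fun m => (Z m).biUnion fun z => z.divisors.image fun a => g m / a : Finset ℕ) :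
        Set ℕ) := by
  rintro w ⟨m, hm, a, _, hw, z, hz, haz⟩
  rw [Finset.mem_coe, Finset.mem_biUnion]
  refine ⟨m, hm, ?_⟩
  rw [Finset.mem_biUnion]
  refine ⟨z, hz, ?_⟩
  rw [Finset.mem_image]
  exact ⟨a, Nat.mem_divisors.2 ⟨haz, by have := hZ m hm z hz; omega⟩, hw⟩

/-- the set of `gcount` is finite -/
theorem gcount_finite (g : ℕ → ℕ) (K : Finset ℕ) (Z : ℕ → Finset ℕ)
    (hZ : ∀ m ∈ K, ∀ z ∈ Z m, 1 ≤ z) :
    {w : ℕ | ∃ m ∈ K, ∃ a : ℕ, 1 ≤ a ∧ g m / a = w ∧ ∃ z ∈ Z m, a ∣ z}.Finite :=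
  (Finset.finite_toSet _).subset (gcount_sub g K Z hZ)

theorem gcount (c : ℝ) (hc : 0 < c) : ∃ C' : ℝ, ∀ (g : ℕ → ℕ) (N : ℕ), 1 ≤ N → ∀ (K : Finset ℕ)
    (Z : ℕ → Finset ℕ) (E : ℝ), (∀ m ∈ K, ∀ z ∈ Z m, 1 ≤ z ∧ z ≤ 5 * N ^ 2) →
    (∀ m ∈ K, (#(Z m) : ℝ) ≤ E) →
    ({w : ℕ | ∃ m ∈ K, ∃ a : ℕ, 1 ≤ a ∧ g m / a = w ∧ ∃ z ∈ Z m, a ∣ z}.ncard : ℝ) ≤
      C' * (N : ℝ) ^ c * #K * E := by
  classical
  obtain ⟨C1, hC1, hd⟩ := Pool.Agent.M17.Helper89.SLE.divisor_bound (c / 2) (by linarith)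
  refine ⟨C1 * (5 : ℝ) ^ (c / 2), ?_⟩
  intro g N hN K Z E hZ hE
  have hN0 : (0 : ℝ) ≤ N := Nat.cast_nonneg _
  have hsub := gcount_sub g K Z fun m hm z hz => (hZ m hm z hz).1
  have h1 := Set.ncard_le_ncard hsub (Finset.finite_toSet _)
  rw [Set.ncard_coe_finset] at h1
  have h2 : (#(K.biUnion fun m => (Z m).biUnion fun z => z.divisors.image fun a => g m / a) : ℝ) ≤
      ∑ m ∈ K, ∑ z ∈ Z m, ((z.divisors.card : ℕ) : ℝ) := by
    have h3 : #(K.biUnion fun m => (Z m).biUnion fun z => z.divisors.image fun a => g m / a) ≤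
        ∑ m ∈ K, ∑ z ∈ Z m, z.divisors.card := by
      refine Finset.card_biUnion_le.trans (Finset.sum_le_sum fun m _ => ?_)
      refine Finset.card_biUnion_le.trans (Finset.sum_le_sum fun z _ => ?_)
      exact Finset.card_image_le
    exact_mod_cast h3
  have h4 : ∑ m ∈ K, ∑ z ∈ Z m, ((z.divisors.card : ℕ) : ℝ) ≤
      ∑ m ∈ K, E * (C1 * (5 : ℝ) ^ (c / 2) * (N : ℝ) ^ c) := by
    refine Finset.sum_le_sum fun m hm => ?_
    have h5 : ∀ z ∈ Z m, ((z.divisors.card : ℕ) : ℝ) ≤ C1 * (5 : ℝ) ^ (c / 2) * (N : ℝ) ^ c := by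
      intro z hz
      have hz' := hZ m hm z hz
      refine (hd z (by omega)).trans ?_
      rw [mul_assoc]
      apply mul_le_mul_of_nonneg_left _ (by linarith)
      have h6 : (z : ℝ) ≤ 5 * (N : ℝ) ^ 2 := by exact_mod_cast hz'.2
      calc (z : ℝ) ^ (c / 2) ≤ (5 * (N : ℝ) ^ 2) ^ (c / 2) :=
            Real.rpow_le_rpow (Nat.cast_nonneg _) h6 (by linarith)
        _ = (5 : ℝ) ^ (c / 2) * ((N : ℝ) ^ 2) ^ (c / 2) :=
            Real.mul_rpow (by norm_num) (by positivity)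
        _ = (5 : ℝ) ^ (c / 2) * (N : ℝ) ^ c := by
            rw [← Real.rpow_natCast (N : ℝ) 2, ← Real.rpow_mul hN0]
            congr 2
            push_cast
            ring
    refine (Finset.sum_le_card_nsmul _ _ _ h5).trans ?_
    rw [nsmul_eq_mul]
    exact mul_le_mul_of_nonneg_right (hE m hm) (by positivity)
  rw [Finset.sum_const, nsmul_eq_mul] at h4
  calc (Set.ncard {w : ℕ | ∃ m ∈ K, ∃ a : ℕ, 1 ≤ a ∧ g m / a = w ∧ ∃ z ∈ Z m, a ∣ z} : ℝ)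
      ≤ (#(K.biUnion fun m => (Z m).biUnion fun z => z.divisors.image fun a => g m / a) : ℝ) := by
        exact_mod_cast h1
    _ ≤ #K * (E * (C1 * (5 : ℝ) ^ (c / 2) * (N : ℝ) ^ c)) := h2.trans h4
    _ = _ := by ring

end Pool.Agent.Helper88.QS
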