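import Pool.Agent.Helper68.CO2.Liou

/-!
# The general final step

From the block statement for separated points to: for all but `C N ^ ε` of the `n ≤ N` every interval `(x, x + L]`,
`n ^ 2 - n ≤ x ≤ n ^ 2 + n`, `L ≥ n ^ (1 - δ)`, contains at least `n ^ (1 - ε)` integers of each parity.
-/

set_option autoImplicit false

namespace Pool.Agent.Helper88.QS

open Finset
open Pool.Agent.Helper68.CO2 (lam)

/-- dyadic sum -/
theorem finG_dyad (P : ℕ → Prop) [DecidablePred P] {ε : ℝ} (hε : 0 < ε) (N0 : ℕ)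
    (hb : ∀ M : ℕ, N0 ≤ M → (#((Ioc M (2 * M)).filter P) : ℝ) ≤ (M : ℝ) ^ ε) :
    ∃ C : ℝ, ∀ N : ℕ, 1 ≤ N → (#((Icc 1 N).filter P) : ℝ) ≤ C * (N : ℝ) ^ ε := by
  have h2 : 1 < (2 : ℝ) ^ ε := Real.one_lt_rpow (by norm_num) hε
  obtain ⟨C, hC⟩ : ∃ C : ℝ, C = max ((2 * N0 + 2 : ℕ) : ℝ) (2 / ((2 : ℝ) ^ ε - 1)) := ⟨_, rfl⟩
  have hC1 : ((2 * N0 + 2 : ℕ) : ℝ) ≤ C := by
    rw [hC]
    exact le_max_left _ _
  have hC2 : 2 ≤ C * ((2 : ℝ) ^ ε - 1) := by
    have h3 : 2 / ((2 : ℝ) ^ ε - 1) ≤ C := by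
      rw [hC]
      exact le_max_right _ _
    rwa [div_le_iff₀ (by linarith)] at h3
  have hC0 : 0 ≤ C := le_trans (Nat.cast_nonneg _) hC1
  refine ⟨C, fun N => ?_⟩
  induction N using Nat.strong_induction_on with
  | _ N ih =>
    intro hN
    have hN1 : (1 : ℝ) ≤ (N : ℝ) := by exact_mod_cast hN
    have hNe : 1 ≤ (N : ℝ) ^ ε := Real.one_le_rpow hN1 hε.le
    by_cases hsm : N < 2 * N0 + 2
    · have h3 : #((Icc 1 N).filter P) ≤ 2 * N0 + 2 := by
        refine (card_filter_le _ _).trans ?_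
        rw [Nat.card_Icc]
        omega
      calc (#((Icc 1 N).filter P) : ℝ) ≤ ((2 * N0 + 2 : ℕ) : ℝ) := by exact_mod_cast h3
        _ ≤ C := hC1
        _ ≤ C * (N : ℝ) ^ ε := le_mul_of_one_le_right hC0 hNe
    · obtain ⟨M, hM⟩ : ∃ M, M = N / 2 := ⟨_, rfl⟩
      have hM1 : 1 ≤ M := by omega
      have h3 : (Icc 1 N).filter P ⊆
          ((Icc 1 M).filter P ∪ (Ioc M (2 * M)).filter P) ∪ {N} := by
        intro x hx
        rw [mem_filter, mem_Icc] at hx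
        rw [mem_union, mem_union, mem_filter, mem_filter, mem_Icc, mem_Ioc, mem_singleton]
        by_cases h4 : x ≤ M
        · exact Or.inl (Or.inl ⟨⟨hx.1.1, h4⟩, hx.2⟩)
        · by_cases h5 : x ≤ 2 * M
          · exact Or.inl (Or.inr ⟨⟨by omega, h5⟩, hx.2⟩)
          · exact Or.inr (by omega)
      have h4 : #((Icc 1 N).filter P) ≤
          #((Icc 1 M).filter P) + #((Ioc M (2 * M)).filter P) + 1 := by
        refine (card_le_card h3).trans ((card_union_le _ _).trans ?_)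
        rw [card_singleton]
        exact Nat.add_le_add_right (card_union_le _ _) 1
      have h5 := ih M (by omega) hM1
      have h6 := hb M (by omega)
      have hMN : (M : ℝ) ≤ (N : ℝ) / 2 := by
        have : 2 * M ≤ N := by omega
        have h7 : (2 : ℝ) * M ≤ N := by exact_mod_cast this
        linarith
      have hMr : (1 : ℝ) ≤ (M : ℝ) := by exact_mod_cast hM1
      have h7 : (M : ℝ) ^ ε ≤ ((N : ℝ) / 2) ^ ε :=
        Real.rpow_le_rpow (by linarith) hMN hε.le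
      have h8 : 1 ≤ ((N : ℝ) / 2) ^ ε := Real.one_le_rpow (by linarith) hε.le
      have h9 : ((N : ℝ) / 2) ^ ε = (N : ℝ) ^ ε / (2 : ℝ) ^ ε :=
        Real.div_rpow (by linarith) (by norm_num) _
      have h10 : (#((Icc 1 N).filter P) : ℝ) ≤
          #((Icc 1 M).filter P) + #((Ioc M (2 * M)).filter P) + 1 := by exact_mod_cast h4
      have h11 : C * (M : ℝ) ^ ε ≤ C * ((N : ℝ) / 2) ^ ε := mul_le_mul_of_nonneg_left h7 hC0
      have h12 : (#((Icc 1 N).filter P) : ℝ) ≤ (C + 2) * ((N : ℝ) / 2) ^ ε := by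
        linarith
      refine h12.trans ?_
      have h13 : (C + 2) ≤ C * (2 : ℝ) ^ ε := by linarith
      have h14 : (N : ℝ) ^ ε = (2 : ℝ) ^ ε * ((N : ℝ) / 2) ^ ε := by
        rw [h9]
        field_simp
      rw [h14, ← mul_assoc]
      exact mul_le_mul_of_nonneg_right h13 (by linarith)

/-- windows are finite -/
theorem finG_fin (x : ℕ) (t : ℝ) (Q : ℕ → Prop) :
    {z : ℕ | x < z ∧ (z : ℝ) ≤ (x : ℝ) + t ∧ Q z}.Finite := by
  refine (Set.finite_Icc 0 ⌊(x : ℝ) + t⌋₊).subset ?_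
  rintro z ⟨-, h2, -⟩
  exact ⟨Nat.zero_le _, Nat.le_floor h2⟩

/-- `n` is poor: some interval at a place near `n ^ 2` has few integers of one parity -/
def PoorG (δ ε : ℝ) (n : ℕ) : Prop :=
  ∃ x : ℕ, n ^ 2 ≤ x + n ∧ x ≤ n ^ 2 + n ∧ ∃ L : ℝ, (n : ℝ) ^ (1 - δ) ≤ L ∧
    ¬ ((n : ℝ) ^ (1 - ε) ≤ ({z : ℕ | x < z ∧ (z : ℝ) ≤ (x : ℝ) + L ∧
          Even (ArithmeticFunction.cardFactors z)}.ncard : ℝ) ∧
      (n : ℝ) ^ (1 - ε) ≤ ({z : ℕ | x < z ∧ (z : ℝ) ≤ (x : ℝ) + L ∧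
          Odd (ArithmeticFunction.cardFactors z)}.ncard : ℝ))

theorem fin_of_block (δ ε : ℝ) (hδ : 0 ≤ δ) (h : 10 * δ < ε)
    (hb : ε ≤ 1 → ∃ N0 : ℕ, ∀ N : ℕ, N0 ≤ N → ∀ X : Finset ℕ,
      (∀ x ∈ X, N ^ 2 ≤ x ∧ x ≤ 5 * N ^ 2) → (∀ x ∈ X, ∀ y ∈ X, x < y → x + N ≤ y) →
      (∀ x ∈ X, ∃ s : ℤˣ, ({z : ℕ | x < z ∧ (z : ℝ) ≤ (x : ℝ) + (N : ℝ) ^ (1 - δ) ∧
        lam z ≠ s}.ncard : ℝ) ≤ 2 * (N : ℝ) ^ (1 - ε)) → (#X : ℝ) ≤ (N : ℝ) ^ ε) :
    ∃ C : ℝ, ∀ N : ℕ, 1 ≤ N →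
      ({n : ℕ | 1 ≤ n ∧ n ≤ N ∧ PoorG δ ε n}.ncard : ℝ) ≤ C * (N : ℝ) ^ ε := by
  classical
  have hε0 : 0 < ε := by linarith
  have hset : ∀ N : ℕ, {n : ℕ | 1 ≤ n ∧ n ≤ N ∧ PoorG δ ε n}.ncard =
      #((Icc 1 N).filter (PoorG δ ε)) := by
    intro N
    rw [← Set.ncard_coe_finset]
    congr 1
    ext m
    rw [mem_coe, mem_filter, mem_Icc, and_assoc]
    rfl
  suffices hmain : ∃ C : ℝ, ∀ N : ℕ, 1 ≤ N →
      (#((Icc 1 N).filter (PoorG δ ε)) : ℝ) ≤ C * (N : ℝ) ^ ε by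
    obtain ⟨C, hC⟩ := hmain
    refine ⟨C, fun N hN => ?_⟩
    rw [hset]
    exact hC N hN
  rcases lt_or_ge 1 ε with hε1 | hε1
  · refine ⟨1, fun N hN => ?_⟩
    have hN1 : (1 : ℝ) ≤ (N : ℝ) := by exact_mod_cast hN
    have h1 : #((Icc 1 N).filter (PoorG δ ε)) ≤ N := by
      refine (card_filter_le _ _).trans ?_
      rw [Nat.card_Icc]
      omega
    calc (#((Icc 1 N).filter (PoorG δ ε)) : ℝ) ≤ (N : ℝ) := by exact_mod_cast h1
      _ = (N : ℝ) ^ (1 : ℝ) := (Real.rpow_one _).symm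
      _ ≤ (N : ℝ) ^ ε := Real.rpow_le_rpow_of_exponent_le hN1 hε1.le
      _ = 1 * (N : ℝ) ^ ε := (one_mul _).symm
  · have hblock : ∃ N0 : ℕ, ∀ N : ℕ, N0 ≤ N → 1 ≤ N → ∀ (B : Finset ℕ) (g : ℕ → ℕ),
        (∀ m ∈ B, N ^ 2 ≤ g m ∧ g m ≤ 5 * N ^ 2) →
        (∀ m ∈ B, ∀ m' ∈ B, m < m' → g m + N ≤ g m') →
        (∀ m ∈ B, ∃ s : ℤˣ, ({z : ℕ | g m < z ∧ (z : ℝ) ≤ (g m : ℝ) + (N : ℝ) ^ (1 - δ) ∧
          lam z ≠ s}.ncard : ℝ) ≤ 2 * (N : ℝ) ^ (1 - ε)) → (#B : ℝ) ≤ (N : ℝ) ^ ε := by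
      obtain ⟨N0, hN0⟩ := hb hε1
      refine ⟨N0, fun N hN hN1 B g h1 h2 h3 => ?_⟩
      have hinj : Set.InjOn g B := by
        intro m hm m' hm' he
        rcases lt_trichotomy m m' with h4 | h4 | h4
        · have := h2 m hm m' hm' h4
          omega
        · exact h4
        · have := h2 m' hm' m hm h4
          omega
      rw [← Finset.card_image_of_injOn hinj]
      refine hN0 N hN (B.image g) ?_ ?_ ?_
      · intro x hx
        obtain ⟨m, hm, rfl⟩ := mem_image.1 hx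
        exact h1 m hm
      · intro x hx y hy hxy
        obtain ⟨m, hm, rfl⟩ := mem_image.1 hx
        obtain ⟨m', hm', rfl⟩ := mem_image.1 hy
        rcases lt_trichotomy m m' with h4 | h4 | h4
        · exact h2 m hm m' hm' h4
        · rw [h4] at hxy
          exact absurd hxy (lt_irrefl _)
        · have := h2 m' hm' m hm h4
          omega
      · intro x hx
        obtain ⟨m, hm, rfl⟩ := mem_image.1 hx
        exact h3 m hm
    obtain ⟨N0, hN0⟩ := hblock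
    -- one residue class
    have key : ∀ r : ℕ, ∀ M : ℕ, max N0 2 ≤ M →
        (#((Ioc M (2 * M)).filter fun n => PoorG δ ε n ∧ n % 2 = r) : ℝ) ≤ (M : ℝ) ^ ε := by
      intro r M hM
      have hM0' : N0 ≤ M := (le_max_left _ _).trans hM
      have hM1 : 2 ≤ M := (le_max_right _ _).trans hM
      have hch : ∀ m : ℕ, ∃ x : ℕ, PoorG δ ε m → (m ^ 2 ≤ x + m ∧ x ≤ m ^ 2 + m ∧ ∃ L : ℝ,
          (m : ℝ) ^ (1 - δ) ≤ L ∧
          ¬ ((m : ℝ) ^ (1 - ε) ≤ ({z : ℕ | x < z ∧ (z : ℝ) ≤ (x : ℝ) + L ∧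
                Even (ArithmeticFunction.cardFactors z)}.ncard : ℝ) ∧
            (m : ℝ) ^ (1 - ε) ≤ ({z : ℕ | x < z ∧ (z : ℝ) ≤ (x : ℝ) + L ∧
                Odd (ArithmeticFunction.cardFactors z)}.ncard : ℝ))) := by
        intro m
        by_cases hp : PoorG δ ε m
        · obtain ⟨x, hx⟩ := hp
          exact ⟨x, fun _ => hx⟩
        · exact ⟨0, fun hq => absurd hq hp⟩
      choose g hg using hch
      refine hN0 M hM0' (by omega) _ g ?_ ?_ ?_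
      · intro m hm
        rw [mem_filter, mem_Ioc] at hm
        obtain ⟨h1, h2, _⟩ := hg m hm.2.1
        constructor
        · have h3 : (M + 1) ^ 2 ≤ m ^ 2 := Nat.pow_le_pow_left hm.1.1 2
          have h4 : m ≤ 2 * M := hm.1.2
          nlinarith
        · have h3 : m ^ 2 ≤ (2 * M) ^ 2 := Nat.pow_le_pow_left hm.1.2 2
          have h4 : m ≤ 2 * M := hm.1.2
          nlinarith
      · intro m hm m' hm' hlt
        rw [mem_filter, mem_Ioc] at hm hm'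
        obtain ⟨_, h2, _⟩ := hg m hm.2.1
        obtain ⟨h1, _, _⟩ := hg m' hm'.2.1
        have h3 : m + 2 ≤ m' := by
          have := hm.2.2
          have := hm'.2.2
          omega
        have h4 : M < m := hm.1.1
        obtain ⟨k, rfl⟩ := Nat.exists_eq_add_of_le h3
        nlinarith
      · intro m hm
        rw [mem_filter, mem_Ioc] at hm
        obtain ⟨⟨hm1, hm2⟩, hmP, _⟩ := hm
        obtain ⟨_, _, L, hL, hm3⟩ := hg m hmP
        have hMm : (M : ℝ) ≤ (m : ℝ) := by exact_mod_cast hm1.le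
        have hm2' : (m : ℝ) ≤ 2 * (M : ℝ) := by exact_mod_cast hm2
        have hM0 : (0 : ℝ) ≤ (M : ℝ) := Nat.cast_nonneg M
        have hw : (M : ℝ) ^ (1 - δ) ≤ L :=
          (Real.rpow_le_rpow hM0 hMm (by linarith)).trans hL
        have hv : (m : ℝ) ^ (1 - ε) ≤ 2 * (M : ℝ) ^ (1 - ε) := by
          calc (m : ℝ) ^ (1 - ε) ≤ (2 * (M : ℝ)) ^ (1 - ε) :=
                Real.rpow_le_rpow (by linarith) hm2' (by linarith)
            _ = (2 : ℝ) ^ (1 - ε) * (M : ℝ) ^ (1 - ε) := Real.mul_rpow (by norm_num) hM0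
            _ ≤ (2 : ℝ) ^ (1 : ℝ) * (M : ℝ) ^ (1 - ε) :=
                mul_le_mul_of_nonneg_right
                  (Real.rpow_le_rpow_of_exponent_le (by norm_num) (by linarith))
                  (Real.rpow_nonneg hM0 _)
            _ = 2 * (M : ℝ) ^ (1 - ε) := by rw [Real.rpow_one]
        rw [not_and_or] at hm3
        rcases hm3 with hm3 | hm3
        · refine ⟨-1, ?_⟩
          have h1 : {z : ℕ | g m < z ∧ (z : ℝ) ≤ (g m : ℝ) + (M : ℝ) ^ (1 - δ) ∧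
              lam z ≠ -1} ⊆ {z : ℕ | g m < z ∧ (z : ℝ) ≤ (g m : ℝ) + L ∧
              Even (ArithmeticFunction.cardFactors z)} := by
            rintro z ⟨z1, z2, z3⟩
            refine ⟨z1, by linarith, ?_⟩
            by_contra hcon
            rw [Nat.not_even_iff_odd] at hcon
            exact z3 hcon.neg_one_pow
          have h2 := Set.ncard_le_ncard h1 (finG_fin _ _ _)
          have h3 : (({z : ℕ | g m < z ∧ (z : ℝ) ≤ (g m : ℝ) + (M : ℝ) ^ (1 - δ) ∧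
              lam z ≠ -1}.ncard : ℕ) : ℝ) ≤
              (({z : ℕ | g m < z ∧ (z : ℝ) ≤ (g m : ℝ) + L ∧
              Even (ArithmeticFunction.cardFactors z)}.ncard : ℕ) : ℝ) := by exact_mod_cast h2
          push Not at hm3
          exact h3.trans (hm3.le.trans hv)
        · refine ⟨1, ?_⟩
          have h1 : {z : ℕ | g m < z ∧ (z : ℝ) ≤ (g m : ℝ) + (M : ℝ) ^ (1 - δ) ∧
              lam z ≠ 1} ⊆ {z : ℕ | g m < z ∧ (z : ℝ) ≤ (g m : ℝ) + L ∧
              Odd (ArithmeticFunction.cardFactors z)} := by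
            rintro z ⟨z1, z2, z3⟩
            refine ⟨z1, by linarith, ?_⟩
            by_contra hcon
            rw [Nat.not_odd_iff_even] at hcon
            exact z3 hcon.neg_one_pow
          have h2 := Set.ncard_le_ncard h1 (finG_fin _ _ _)
          have h3 : (({z : ℕ | g m < z ∧ (z : ℝ) ≤ (g m : ℝ) + (M : ℝ) ^ (1 - δ) ∧
              lam z ≠ 1}.ncard : ℕ) : ℝ) ≤
              (({z : ℕ | g m < z ∧ (z : ℝ) ≤ (g m : ℝ) + L ∧
              Odd (ArithmeticFunction.cardFactors z)}.ncard : ℕ) : ℝ) := by exact_mod_cast h2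
          push Not at hm3
          exact h3.trans (hm3.le.trans hv)
    obtain ⟨C0, hC0⟩ := finG_dyad (fun n => PoorG δ ε n ∧ n % 2 = 0) hε0
      (max N0 2) (key 0)
    obtain ⟨C1, hC1⟩ := finG_dyad (fun n => PoorG δ ε n ∧ n % 2 = 1) hε0
      (max N0 2) (key 1)
    refine ⟨C0 + C1, fun N hN => ?_⟩
    have h1 : (Icc 1 N).filter (PoorG δ ε) ⊆
        (Icc 1 N).filter (fun n => PoorG δ ε n ∧ n % 2 = 0) ∪
        (Icc 1 N).filter (fun n => PoorG δ ε n ∧ n % 2 = 1) := by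
      intro n hn
      rw [mem_filter] at hn
      rw [mem_union, mem_filter, mem_filter]
      rcases Nat.mod_two_eq_zero_or_one n with h2 | h2
      · exact Or.inl ⟨hn.1, hn.2, h2⟩
      · exact Or.inr ⟨hn.1, hn.2, h2⟩
    have h2 := (card_le_card h1).trans (card_union_le _ _)
    have h3 : (#((Icc 1 N).filter (PoorG δ ε)) : ℝ) ≤
        #((Icc 1 N).filter (fun n => PoorG δ ε n ∧ n % 2 = 0)) +
        #((Icc 1 N).filter (fun n => PoorG δ ε n ∧ n % 2 = 1)) := by exact_mod_cast h2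
    have h4 := hC0 N hN
    have h5 := hC1 N hN
    calc (#((Icc 1 N).filter (PoorG δ ε)) : ℝ) ≤ C0 * (N : ℝ) ^ ε + C1 * (N : ℝ) ^ ε := by linarith
      _ = (C0 + C1) * (N : ℝ) ^ ε := by ring

end Pool.Agent.Helper88.QS
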