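import Mathlib

/-!
# Parameters, uniform version

`s = √(log N)`, `b = ⌈s⌉`, `X = 2 ^ (5 b + 5)`, `W = ⌈40 N y⌉`, `V = 32 (X W / 2)`, `H = ⌈512 V ^ 4 / N ^ 4⌉`,
`R = ⌈y ^ 9 2 ^ (260 b)⌉`, `C = 526`.
-/

set_option autoImplicit false

namespace Pool.Agent.Helper88.QS

open Finset

theorem pardU : ∃ C : ℝ, 0 < C ∧ ∀ ε : ℝ, 0 < ε → ε ≤ 1 → ∀ C' : ℝ, ∃ N0 : ℕ, ∀ N : ℕ, N0 ≤ N →
    ∀ y : ℝ, 1 ≤ y → y ^ 10 ≤ (N : ℝ) ^ ε → ∃ (b X W R : ℕ) (H : ℕ → ℕ),
    16 * (2 ^ (b + 1)) ^ 2 ≤ X ∧ 1 ≤ N ∧ 1 ≤ W ∧ 32 * W * (2 ^ (b + 1)) ^ (b + 2) ≤ X ^ (b + 1) ∧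
    1 ≤ R ∧ 2 * (R : ℝ) + 1 ≤ y ^ 10 * Real.exp (C * √(Real.log N)) ∧ 6 ≤ X * W ∧
    40 * (N : ℝ) ^ 2 ≤ W * (N / y) ∧ N ≤ X * W / 2 ∧
    (∀ i < 6, 512 * (2 ^ i * (X * W / 2)) ^ 4 ≤ H i * N ^ 4) ∧
    (2 : ℝ) ^ (b + 2) * (∑ i ∈ range 6, 64 * ((2 ^ i * (X * W / 2) : ℕ) : ℝ) ^ 2 / N *
      (H i : ℝ) ^ 2 * (1 + Real.log (8 * H i * N : ℕ)) / R +
      C' * (N : ℝ) ^ (ε / 10) * R * (2 * (N : ℝ) ^ (1 - ε))) ≤ W := by
  refine ⟨526, by norm_num, ?_⟩
  intro ε hε hε1 C'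
  obtain ⟨C2, hC2⟩ : ∃ C2 : ℝ, C2 = max C' 1 := ⟨_, rfl⟩
  have hC21 : 1 ≤ C2 := by
    rw [hC2]
    exact le_max_right _ _
  have hC2C : C' ≤ C2 := by
    rw [hC2]
    exact le_max_left _ _
  obtain ⟨S, hS⟩ : ∃ S : ℝ, S = max 1 (max (5230 / ε) C2) := ⟨_, rfl⟩
  have hS1 : 1 ≤ S := by
    rw [hS]
    exact le_max_left _ _
  have hSε : 5230 / ε ≤ S := by
    rw [hS]
    exact (le_max_left _ _).trans (le_max_right _ _)
  have hSC : C2 ≤ S := by
    rw [hS]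
    exact (le_max_right _ _).trans (le_max_right _ _)
  refine ⟨⌈Real.exp (S ^ 2)⌉₊, ?_⟩
  intro N hN y hy hyN
  have hNe : Real.exp (S ^ 2) ≤ N := (Nat.le_ceil _).trans (by exact_mod_cast hN)
  have hN0 : (0 : ℝ) < N := lt_of_lt_of_le (Real.exp_pos _) hNe
  have hN1 : (1 : ℝ) ≤ N := (Real.one_le_exp (by positivity)).trans hNe
  have hN1' : 1 ≤ N := by exact_mod_cast hN1
  have hlog : S ^ 2 ≤ Real.log N := by
    rw [Real.le_log_iff_exp_le hN0]
    exact hNe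
  obtain ⟨s, hs⟩ : ∃ s : ℝ, s = √(Real.log N) := ⟨_, rfl⟩
  have hlog0 : 0 ≤ Real.log N := Real.log_nonneg hN1
  have hsS : S ≤ s := by
    rw [hs]
    exact Real.le_sqrt_of_sq_le hlog
  have hs2 : s ^ 2 = Real.log N := by
    rw [hs]
    exact Real.sq_sqrt hlog0
  have hs1 : 1 ≤ s := hS1.trans hsS
  obtain ⟨b, hb⟩ : ∃ b : ℕ, b = ⌈s⌉₊ := ⟨_, rfl⟩
  have hb1 : s ≤ b := by
    rw [hb]
    exact Nat.le_ceil _
  have hb2 : (b : ℝ) ≤ 2 * s := by
    have := Nat.ceil_lt_add_one (show (0 : ℝ) ≤ s by linarith)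
    rw [← hb] at this
    linarith
  have hbn : 1 ≤ b := by
    have : (1 : ℝ) ≤ b := hs1.trans hb1
    exact_mod_cast this
  have hbr : (1 : ℝ) ≤ b := by exact_mod_cast hbn
  have hlog2 : Real.log 2 ≤ 1 := by
    have := Real.log_le_sub_one_of_pos (show (0 : ℝ) < 2 by norm_num)
    linarith
  have hlog2' : 0.69 ≤ Real.log 2 := by
    have := Real.log_two_gt_d9
    linarith
  have hy0 : 0 < y := by linarith
  -- bounds for `y`
  have hyN' : y ≤ (N : ℝ) ^ (ε / 10) := by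
    calc y = (y ^ (10 : ℕ)) ^ ((1 : ℝ) / 10) := by
          rw [← Real.rpow_natCast, ← Real.rpow_mul hy0.le]
          norm_num
      _ ≤ ((N : ℝ) ^ ε) ^ ((1 : ℝ) / 10) := Real.rpow_le_rpow (by positivity) hyN (by norm_num)
      _ = (N : ℝ) ^ (ε / 10) := by
          rw [← Real.rpow_mul hN0.le]
          congr 1
          ring
  have hy8 : y ^ 8 ≤ (N : ℝ) ^ (8 * (ε / 10)) := by
    calc y ^ 8 ≤ ((N : ℝ) ^ (ε / 10)) ^ 8 := pow_le_pow_left₀ hy0.le hyN' 8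
      _ = (N : ℝ) ^ (8 * (ε / 10)) := by
          rw [← Real.rpow_natCast, ← Real.rpow_mul hN0.le]
          congr 1
          push_cast
          ring
  have hyN1 : y ≤ N := by
    calc y ≤ (N : ℝ) ^ (ε / 10) := hyN'
      _ ≤ (N : ℝ) ^ (1 : ℝ) := Real.rpow_le_rpow_of_exponent_le hN1 (by linarith)
      _ = N := Real.rpow_one _
  have hNy : (1 : ℝ) ≤ N * y := by nlinarith
  -- the numbers
  obtain ⟨X, hX⟩ : ∃ X : ℕ, X = 2 ^ (5 * b + 5) := ⟨_, rfl⟩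
  obtain ⟨W, hW⟩ : ∃ W : ℕ, W = ⌈40 * (N : ℝ) * y⌉₊ := ⟨_, rfl⟩
  obtain ⟨R, hR⟩ : ∃ R : ℕ, R = ⌈y ^ 9 * (2 : ℝ) ^ (260 * b)⌉₊ := ⟨_, rfl⟩
  obtain ⟨V, hV⟩ : ∃ V : ℕ, V = 32 * (X * W / 2) := ⟨_, rfl⟩
  obtain ⟨H, hH⟩ : ∃ H : ℕ, H = ⌈512 * (V : ℝ) ^ 4 / (N : ℝ) ^ 4⌉₊ := ⟨_, rfl⟩
  have hXr : (X : ℝ) = (2 : ℝ) ^ (5 * b + 5) := by
    rw [hX]
    push_cast
    rfl
  have hX1024 : 1024 ≤ X := by
    rw [hX]
    calc 1024 = 2 ^ 10 := by norm_num
      _ ≤ 2 ^ (5 * b + 5) := Nat.pow_le_pow_right (by norm_num) (by omega)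
  have hXr1 : (1024 : ℝ) ≤ X := by exact_mod_cast hX1024
  have hW1 : 40 * (N : ℝ) * y ≤ W := by
    rw [hW]
    exact Nat.le_ceil _
  have hW2 : (W : ℝ) ≤ 41 * (N * y) := by
    have := Nat.ceil_lt_add_one (show (0 : ℝ) ≤ 40 * (N : ℝ) * y by positivity)
    rw [← hW] at this
    linarith
  have hWN : (40 : ℝ) * N ≤ W := by nlinarith
  have hWN' : 40 * N ≤ W := by exact_mod_cast hWN
  have hR1 : y ^ 9 * (2 : ℝ) ^ (260 * b) ≤ R := by
    rw [hR]
    exact Nat.le_ceil _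
  have h2p : (1 : ℝ) ≤ (2 : ℝ) ^ (260 * b) := one_le_pow₀ (by norm_num)
  have hy9 : (1 : ℝ) ≤ y ^ 9 := one_le_pow₀ hy
  have hR0 : (1 : ℝ) ≤ y ^ 9 * (2 : ℝ) ^ (260 * b) := by nlinarith
  have hR2 : (R : ℝ) ≤ 2 * (y ^ 9 * (2 : ℝ) ^ (260 * b)) := by
    have := Nat.ceil_lt_add_one (show (0 : ℝ) ≤ y ^ 9 * (2 : ℝ) ^ (260 * b) by positivity)
    rw [← hR] at this
    linarith
  have hRr : (1 : ℝ) ≤ R := hR0.trans hR1
  have hXW : X * W / 2 * 2 ≤ X * W := Nat.div_mul_le_self _ _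
  have hNXW : N ≤ X * W / 2 := by
    rw [Nat.le_div_iff_mul_le (by norm_num)]
    calc N * 2 ≤ 1024 * (40 * N) := by omega
      _ ≤ X * W := Nat.mul_le_mul hX1024 hWN'
  have hVN : (N : ℝ) ≤ V := by
    have : N ≤ V := by omega
    exact_mod_cast this
  have hV0 : (0 : ℝ) < V := by linarith
  have hV1 : (V : ℝ) ≤ 656 * X * y * N := by
    have h1 : V ≤ 16 * (X * W) := by omega
    have h2 : (V : ℝ) ≤ 16 * (X * W) := by exact_mod_cast h1
    have h3 : (X : ℝ) * W ≤ X * (41 * (N * y)) := mul_le_mul_of_nonneg_left hW2 (by positivity)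
    linarith
  have hVN4 : (1 : ℝ) ≤ (V : ℝ) ^ 4 / (N : ℝ) ^ 4 := by
    rw [le_div_iff₀ (by positivity), one_mul]
    exact pow_le_pow_left₀ hN0.le hVN 4
  have hH1 : 512 * (V : ℝ) ^ 4 / (N : ℝ) ^ 4 ≤ H := by
    rw [hH]
    exact Nat.le_ceil _
  have hH2 : (H : ℝ) ≤ 513 * (656 * X * y) ^ 4 := by
    have h1 := Nat.ceil_lt_add_one (show (0 : ℝ) ≤ 512 * (V : ℝ) ^ 4 / (N : ℝ) ^ 4 by positivity)
    rw [← hH, mul_div_assoc] at h1
    have h3 : (V : ℝ) ^ 4 / (N : ℝ) ^ 4 ≤ (656 * X * y) ^ 4 := by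
      rw [div_le_iff₀ (by positivity), ← mul_pow]
      exact pow_le_pow_left₀ hV0.le hV1 4
    linarith
  have hH0 : (1 : ℝ) ≤ H := by
    rw [mul_div_assoc] at hH1
    linarith
  -- the logarithm
  obtain ⟨LG, hLG⟩ : ∃ LG : ℝ, LG = 1 + Real.log (8 * H * N : ℕ) := ⟨_, rfl⟩
  have hLG0 : 0 ≤ LG := by
    rw [hLG]
    have := Real.log_natCast_nonneg (8 * H * N)
    linarith
  have hLG1 : LG ≤ (2 : ℝ) ^ (2 * b + 7) := by
    have hy4 : y ^ 4 ≤ N := by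
      calc y ^ 4 ≤ ((N : ℝ) ^ (ε / 10)) ^ 4 := pow_le_pow_left₀ hy0.le hyN' 4
        _ = (N : ℝ) ^ (4 * (ε / 10)) := by
            rw [← Real.rpow_natCast, ← Real.rpow_mul hN0.le]
            congr 1
            push_cast
            ring
        _ ≤ (N : ℝ) ^ (1 : ℝ) := Real.rpow_le_rpow_of_exponent_le hN1 (by linarith)
        _ = N := Real.rpow_one _
    have h1 : ((8 * H * N : ℕ) : ℝ) ≤ (2 : ℝ) ^ 50 * (X : ℝ) ^ 4 * (N : ℝ) ^ 2 := by
      push_cast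
      calc 8 * (H : ℝ) * N ≤ 8 * (513 * (656 * X * y) ^ 4) * N := by
            apply mul_le_mul_of_nonneg_right _ hN0.le
            linarith
        _ = (8 * 513 * 656 ^ 4) * (X : ℝ) ^ 4 * N * y ^ 4 := by ring
        _ ≤ (8 * 513 * 656 ^ 4) * (X : ℝ) ^ 4 * N * N :=
            mul_le_mul_of_nonneg_left hy4 (by positivity)
        _ = (8 * 513 * 656 ^ 4) * ((X : ℝ) ^ 4 * (N : ℝ) ^ 2) := by ring
        _ ≤ (2 : ℝ) ^ 50 * ((X : ℝ) ^ 4 * (N : ℝ) ^ 2) :=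
            mul_le_mul_of_nonneg_right (by norm_num) (by positivity)
        _ = _ := by ring
    have hHN0 : (0 : ℝ) < ((8 * H * N : ℕ) : ℝ) := by
      push_cast
      positivity
    have hX0 : (0 : ℝ) < X := by linarith
    have h2 : Real.log (8 * H * N : ℕ) ≤ 50 * Real.log 2 + 4 * ((5 * b + 5) * Real.log 2) +
        2 * Real.log N := by
      refine (Real.log_le_log hHN0 h1).trans (le_of_eq ?_)
      rw [Real.log_mul (by positivity) (by positivity), Real.log_mul (by positivity) (by positivity),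
        Real.log_pow, Real.log_pow, Real.log_pow, hXr, Real.log_pow]
      push_cast
      ring
    have h3 : Real.log N ≤ (b : ℝ) ^ 2 := by
      rw [← hs2]
      exact pow_le_pow_left₀ (by linarith) hb1 2
    have h4 : LG ≤ 93 * (b : ℝ) ^ 2 := by
      rw [hLG]
      have h5 : (1 : ℝ) ≤ (b : ℝ) ^ 2 := one_le_pow₀ hbr
      have h6 : (b : ℝ) ≤ (b : ℝ) ^ 2 := by nlinarith
      have h7 : (5 * (b : ℝ) + 5) * Real.log 2 ≤ (5 * b + 5) * 1 :=
        mul_le_mul_of_nonneg_left hlog2 (by positivity)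
      linarith
    have h8 : (b : ℝ) ≤ (2 : ℝ) ^ b := by
      exact_mod_cast (Nat.lt_two_pow_self (n := b)).le
    calc LG ≤ 93 * (b : ℝ) ^ 2 := h4
      _ ≤ 128 * ((2 : ℝ) ^ b) ^ 2 := by
          have := pow_le_pow_left₀ (by positivity) h8 2
          have h9 : (0 : ℝ) ≤ ((2 : ℝ) ^ b) ^ 2 := by positivity
          linarith
      _ = (2 : ℝ) ^ (2 * b + 7) := by
          rw [pow_add, ← pow_mul, mul_comm b 2]
          norm_num
          ring
  -- powers of two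
  have h2le : ∀ {u v : ℕ}, u ≤ v → (2 : ℝ) ^ u ≤ (2 : ℝ) ^ v := fun h =>
    pow_le_pow_right₀ (by norm_num) h
  have h2exp : ∀ k : ℕ, (2 : ℝ) ^ (k * b) ≤ Real.exp (2 * k * s) := by
    intro k
    calc (2 : ℝ) ^ (k * b) = Real.exp (Real.log 2 * (k * b : ℕ)) := by
          rw [← Real.rpow_natCast, Real.rpow_def_of_pos (by norm_num)]
      _ ≤ Real.exp (2 * k * s) := by
          apply Real.exp_le_exp.2
          push_cast
          have h1 : (k : ℝ) * b ≤ k * (2 * s) := mul_le_mul_of_nonneg_left hb2 (by positivity)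
          have h2 : Real.log 2 * ((k : ℝ) * b) ≤ 1 * (k * b) :=
            mul_le_mul_of_nonneg_right hlog2 (by positivity)
          linarith
  refine ⟨b, X, W, R, fun _ => H, ?_, hN1', ?_, ?_, ?_, ?_, ?_, ?_, hNXW, ?_, ?_⟩
  · rw [hX, ← pow_mul]
    calc 16 * 2 ^ ((b + 1) * 2) = 2 ^ (4 + (b + 1) * 2) := by
          rw [pow_add]
          norm_num
      _ ≤ 2 ^ (5 * b + 5) := Nat.pow_le_pow_right (by norm_num) (by omega)
  · omega
  · -- the chain condition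
    have h1 : (W : ℝ) ≤ 64 * (N : ℝ) ^ 2 := by nlinarith
    have h2 : (N : ℝ) ^ 2 ≤ (2 : ℝ) ^ (3 * b ^ 2) := by
      rw [← Real.log_le_log_iff (by positivity) (by positivity), Real.log_pow, Real.log_pow, ← hs2]
      push_cast
      have h3 : s ^ 2 ≤ (b : ℝ) ^ 2 := pow_le_pow_left₀ (by linarith) hb1 2
      have h4 : (0 : ℝ) ≤ (b : ℝ) ^ 2 := by positivity
      nlinarith
    have h3 : ((32 * W * (2 ^ (b + 1)) ^ (b + 2) : ℕ) : ℝ) ≤ ((X ^ (b + 1) : ℕ) : ℝ) := by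
      push_cast
      rw [hXr]
      calc 32 * (W : ℝ) * ((2 : ℝ) ^ (b + 1)) ^ (b + 2)
          ≤ 32 * (64 * (2 : ℝ) ^ (3 * b ^ 2)) * ((2 : ℝ) ^ (b + 1)) ^ (b + 2) := by
            apply mul_le_mul_of_nonneg_right _ (by positivity)
            linarith
        _ = (2 : ℝ) ^ (11 + 3 * b ^ 2 + (b + 1) * (b + 2)) := by
            rw [← pow_mul, pow_add (2 : ℝ) (11 + 3 * b ^ 2) ((b + 1) * (b + 2)),
              pow_add (2 : ℝ) 11 (3 * b ^ 2)]
            generalize (2 : ℝ) ^ (3 * b ^ 2) = A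
            generalize (2 : ℝ) ^ ((b + 1) * (b + 2)) = B
            ring
        _ ≤ (2 : ℝ) ^ ((5 * b + 5) * (b + 1)) := h2le (by nlinarith)
        _ = ((2 : ℝ) ^ (5 * b + 5)) ^ (b + 1) := by rw [pow_mul]
    exact_mod_cast h3
  · exact_mod_cast hRr
  · -- the number of exceptions
    rw [← hs]
    have h1 : 2 * (R : ℝ) + 1 ≤ 5 * (y ^ 9 * (2 : ℝ) ^ (260 * b)) := by linarith
    have h3 : (5 : ℝ) * (2 : ℝ) ^ (260 * b) ≤ (2 : ℝ) ^ (263 * b) := by
      calc (5 : ℝ) * (2 : ℝ) ^ (260 * b) ≤ (2 : ℝ) ^ 3 * (2 : ℝ) ^ (260 * b) := by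
            apply mul_le_mul_of_nonneg_right (by norm_num) (by positivity)
        _ = (2 : ℝ) ^ (3 + 260 * b) := by rw [pow_add]
        _ ≤ (2 : ℝ) ^ (263 * b) := h2le (by omega)
    have h4 := h2exp 263
    have h5 : y ^ 9 ≤ y ^ 10 := pow_le_pow_right₀ hy (by norm_num)
    calc 2 * (R : ℝ) + 1 ≤ 5 * (y ^ 9 * (2 : ℝ) ^ (260 * b)) := h1
      _ = y ^ 9 * (5 * (2 : ℝ) ^ (260 * b)) := by ring
      _ ≤ y ^ 10 * Real.exp (526 * s) := by
          apply mul_le_mul h5 _ (by positivity) (by positivity)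
          refine (h3.trans h4).trans (le_of_eq ?_)
          congr 1
          push_cast
          ring
  · calc 6 ≤ 1024 * 40 := by norm_num
      _ ≤ X * W := Nat.mul_le_mul hX1024 (by omega)
  · rw [← mul_div_assoc, le_div_iff₀ hy0]
    nlinarith
  · intro i hi
    have h10 : 2 ^ i * (X * W / 2) ≤ V := by
      rw [hV]
      apply Nat.mul_le_mul_right
      calc 2 ^ i ≤ 2 ^ 5 := Nat.pow_le_pow_right (by norm_num) (by omega)
        _ = 32 := by norm_num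
    have h11 : ((512 * V ^ 4 : ℕ) : ℝ) ≤ ((H * N ^ 4 : ℕ) : ℝ) := by
      push_cast
      rw [div_le_iff₀ (by positivity)] at hH1
      exact hH1
    have h12 : 512 * V ^ 4 ≤ H * N ^ 4 := by exact_mod_cast h11
    exact (Nat.mul_le_mul_left 512 (Nat.pow_le_pow_left h10 4)).trans h12
  · -- the sum
    have hsum : ∑ i ∈ range 6, 64 * ((2 ^ i * (X * W / 2) : ℕ) : ℝ) ^ 2 / N *
        (H : ℝ) ^ 2 * (1 + Real.log (8 * H * N : ℕ)) / R ≤
        384 * (V : ℝ) ^ 2 * (H : ℝ) ^ 2 * LG / (N * R) := by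
      have hterm : ∀ i ∈ range 6, 64 * ((2 ^ i * (X * W / 2) : ℕ) : ℝ) ^ 2 / N *
          (H : ℝ) ^ 2 * (1 + Real.log (8 * H * N : ℕ)) / R ≤
          64 * (V : ℝ) ^ 2 * (H : ℝ) ^ 2 * LG / (N * R) := by
        intro i hi
        have hi' := Finset.mem_range.1 hi
        have h10 : 2 ^ i * (X * W / 2) ≤ V := by
          rw [hV]
          apply Nat.mul_le_mul_right
          calc 2 ^ i ≤ 2 ^ 5 := Nat.pow_le_pow_right (by norm_num) (by omega)
            _ = 32 := by norm_num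
        have h11 : ((2 ^ i * (X * W / 2) : ℕ) : ℝ) ^ 2 ≤ (V : ℝ) ^ 2 :=
          pow_le_pow_left₀ (Nat.cast_nonneg _) (by exact_mod_cast h10) 2
        rw [← hLG]
        have e1 : 64 * ((2 ^ i * (X * W / 2) : ℕ) : ℝ) ^ 2 / N * (H : ℝ) ^ 2 * LG / R =
            64 * ((2 ^ i * (X * W / 2) : ℕ) : ℝ) ^ 2 * (H : ℝ) ^ 2 * LG / (N * R) := by
          field_simp
        rw [e1]
        apply div_le_div_of_nonneg_right _ (by positivity)
        apply mul_le_mul_of_nonneg_right _ hLG0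
        apply mul_le_mul_of_nonneg_right _ (by positivity)
        exact mul_le_mul_of_nonneg_left h11 (by norm_num)
      refine (Finset.sum_le_card_nsmul _ _ _ hterm).trans (le_of_eq ?_)
      rw [Finset.card_range, nsmul_eq_mul]
      push_cast
      ring
    have hA : (2 : ℝ) ^ (b + 2) * (384 * (V : ℝ) ^ 2 * (H : ℝ) ^ 2 * LG / (N * R)) ≤ N * y := by
      rw [← mul_div_assoc, div_le_iff₀ (by positivity)]
      have g1 : (V : ℝ) ^ 2 ≤ (656 * X * y * N) ^ 2 := pow_le_pow_left₀ hV0.le hV1 2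
      have g2 : (H : ℝ) ^ 2 ≤ (513 * (656 * X * y) ^ 4) ^ 2 := pow_le_pow_left₀ (by linarith) hH2 2
      calc (2 : ℝ) ^ (b + 2) * (384 * (V : ℝ) ^ 2 * (H : ℝ) ^ 2 * LG)
          ≤ (2 : ℝ) ^ (b + 2) * (384 * (656 * X * y * N) ^ 2 * (513 * (656 * X * y) ^ 4) ^ 2 *
              (2 : ℝ) ^ (2 * b + 7)) := by
            apply mul_le_mul_of_nonneg_left _ (by positivity)
            apply mul_le_mul _ hLG1 hLG0 (by positivity)
            apply mul_le_mul _ g2 (by positivity) (by positivity)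
            exact mul_le_mul_of_nonneg_left g1 (by norm_num)
        _ = (384 * 513 ^ 2 * 656 ^ 10) * ((2 : ℝ) ^ (b + 2) * (X : ℝ) ^ 10 *
              (2 : ℝ) ^ (2 * b + 7)) * (N ^ 2 * y ^ 10) := by ring
        _ ≤ (2 : ℝ) ^ 122 * ((2 : ℝ) ^ (b + 2) * (X : ℝ) ^ 10 *
              (2 : ℝ) ^ (2 * b + 7)) * (N ^ 2 * y ^ 10) := by
            apply mul_le_mul_of_nonneg_right _ (by positivity)
            apply mul_le_mul_of_nonneg_right _ (by positivity)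
            norm_num
        _ = (2 : ℝ) ^ (122 + ((b + 2) + (5 * b + 5) * 10 + (2 * b + 7))) * (N ^ 2 * y ^ 10) := by
            rw [hXr, ← pow_mul, ← pow_add, ← pow_add, ← pow_add]
        _ ≤ (2 : ℝ) ^ (260 * b) * (N ^ 2 * y ^ 10) := by
            apply mul_le_mul_of_nonneg_right _ (by positivity)
            exact h2le (by omega)
        _ = N * y * (N * (y ^ 9 * (2 : ℝ) ^ (260 * b))) := by ring
        _ ≤ N * y * (N * R) := by
            apply mul_le_mul_of_nonneg_left _ (by positivity)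
            exact mul_le_mul_of_nonneg_left hR1 hN0.le
    have hNε : C2 * (2 : ℝ) ^ (261 * b) ≤ (N : ℝ) ^ (ε / 10) := by
      have g1 : C2 ≤ Real.exp s := by
        have := Real.add_one_le_exp s
        linarith
      have g2 := h2exp 261
      have g3 : (N : ℝ) ^ (ε / 10) = Real.exp (Real.log N * (ε / 10)) := Real.rpow_def_of_pos hN0 _
      calc C2 * (2 : ℝ) ^ (261 * b) ≤ Real.exp s * Real.exp (2 * (261 : ℕ) * s) :=
            mul_le_mul g1 g2 (by positivity) (Real.exp_pos _).le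
        _ = Real.exp (523 * s) := by
            rw [← Real.exp_add]
            congr 1
            push_cast
            ring
        _ ≤ Real.exp (Real.log N * (ε / 10)) := by
            apply Real.exp_le_exp.2
            rw [← hs2]
            have g4 : 5230 ≤ s * ε := by
              have := hSε.trans hsS
              rwa [div_le_iff₀ hε] at this
            nlinarith
        _ = _ := g3.symm
    have hB : (2 : ℝ) ^ (b + 2) * (C' * (N : ℝ) ^ (ε / 10) * R * (2 * (N : ℝ) ^ (1 - ε))) ≤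
        16 * (N * y) := by
      have g1 : (N : ℝ) ^ (ε / 10) * ((N : ℝ) ^ (8 * (ε / 10)) * (N : ℝ) ^ (1 - ε)) *
          (N : ℝ) ^ (ε / 10) = N := by
        rw [← Real.rpow_add hN0, ← Real.rpow_add hN0, ← Real.rpow_add hN0]
        rw [show ε / 10 + (8 * (ε / 10) + (1 - ε)) + ε / 10 = 1 by ring, Real.rpow_one]
      calc (2 : ℝ) ^ (b + 2) * (C' * (N : ℝ) ^ (ε / 10) * R * (2 * (N : ℝ) ^ (1 - ε)))
          ≤ (2 : ℝ) ^ (b + 2) * (C2 * (N : ℝ) ^ (ε / 10) * (2 * (y ^ 9 * (2 : ℝ) ^ (260 * b))) *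
              (2 * (N : ℝ) ^ (1 - ε))) := by
            apply mul_le_mul_of_nonneg_left _ (by positivity)
            apply mul_le_mul_of_nonneg_right _ (by positivity)
            apply mul_le_mul _ hR2 (by positivity) (by positivity)
            exact mul_le_mul_of_nonneg_right hC2C (by positivity)
        _ = (C2 * ((2 : ℝ) ^ (b + 2) * (2 : ℝ) ^ (260 * b))) * (4 * y) * ((N : ℝ) ^ (ε / 10) *
              (y ^ 8 * (N : ℝ) ^ (1 - ε))) := by ring
        _ ≤ (C2 * ((2 : ℝ) ^ (b + 2) * (2 : ℝ) ^ (260 * b))) * (4 * y) * ((N : ℝ) ^ (ε / 10) *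
              ((N : ℝ) ^ (8 * (ε / 10)) * (N : ℝ) ^ (1 - ε))) := by
            apply mul_le_mul_of_nonneg_left _ (by positivity)
            apply mul_le_mul_of_nonneg_left _ (by positivity)
            exact mul_le_mul_of_nonneg_right hy8 (by positivity)
        _ = (C2 * (2 : ℝ) ^ (261 * b)) * (16 * y) * ((N : ℝ) ^ (ε / 10) *
              ((N : ℝ) ^ (8 * (ε / 10)) * (N : ℝ) ^ (1 - ε))) := by
            have e : (2 : ℝ) ^ (b + 2) * (2 : ℝ) ^ (260 * b) = 4 * (2 : ℝ) ^ (261 * b) := by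
              rw [← pow_add, show b + 2 + 260 * b = 261 * b + 2 by ring, pow_add]
              norm_num
              ring
            rw [e]
            ring
        _ ≤ (N : ℝ) ^ (ε / 10) * (16 * y) * ((N : ℝ) ^ (ε / 10) *
              ((N : ℝ) ^ (8 * (ε / 10)) * (N : ℝ) ^ (1 - ε))) := by
            apply mul_le_mul_of_nonneg_right _ (by positivity)
            exact mul_le_mul_of_nonneg_right hNε (by positivity)
        _ = 16 * y * ((N : ℝ) ^ (ε / 10) * ((N : ℝ) ^ (8 * (ε / 10)) * (N : ℝ) ^ (1 - ε)) *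
              (N : ℝ) ^ (ε / 10)) := by ring
        _ = 16 * (N * y) := by
            rw [g1]
            ring
    calc (2 : ℝ) ^ (b + 2) * (∑ i ∈ range 6, 64 * ((2 ^ i * (X * W / 2) : ℕ) : ℝ) ^ 2 / N *
          (H : ℝ) ^ 2 * (1 + Real.log (8 * H * N : ℕ)) / R +
          C' * (N : ℝ) ^ (ε / 10) * R * (2 * (N : ℝ) ^ (1 - ε)))
        = (2 : ℝ) ^ (b + 2) * (∑ i ∈ range 6, 64 * ((2 ^ i * (X * W / 2) : ℕ) : ℝ) ^ 2 / N *
          (H : ℝ) ^ 2 * (1 + Real.log (8 * H * N : ℕ)) / R) +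
          (2 : ℝ) ^ (b + 2) * (C' * (N : ℝ) ^ (ε / 10) * R * (2 * (N : ℝ) ^ (1 - ε))) := by ring
      _ ≤ N * y + 16 * (N * y) := by
          apply add_le_add _ hB
          exact (mul_le_mul_of_nonneg_left hsum (by positivity)).trans hA
      _ ≤ W := by nlinarith

end Pool.Agent.Helper88.QS
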